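import Pool.Agent.Q188.NS.Half

/-!
# Invariance under linear isometries
-/

set_option autoImplicit false

namespace Pool.Agent.Q188.NS

open MeasureTheory Set Filter Topology
open scoped ENNReal InnerProductSpace
open Pool.Agent.W695.KH
open Pool.Agent.Q188.NC (KLS Dom)

variable {κ κ' : Type} [Fintype κ] [Fintype κ']

theorem ev_iso (T : Eu κ ≃ₗᵢ[ℝ] Eu κ') (Ω : Set (Eu κ)) (g : Eu κ' → ℝ) :
    EV (T '' Ω) g = EV Ω fun x => g (T x) := by
  have hT : MeasurePreserving (T : Eu κ → Eu κ') volume volume := T.measurePreserving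
  have hemb : MeasurableEmbedding (T : Eu κ → Eu κ') := T.toHomeomorph.measurableEmbedding
  have hpre : (T : Eu κ → Eu κ') ⁻¹' (T '' Ω) = Ω := preimage_image_eq _ T.injective
  unfold EV
  have h1 := hT.setIntegral_preimage_emb hemb g (T '' Ω)
  have h2 := hT.measure_preimage_emb hemb (T '' Ω)
  rw [hpre] at h1 h2
  rw [← h1, ← h2]

theorem kls_iso (T : Eu κ ≃ₗᵢ[ℝ] Eu κ') {Ω : Set (Eu κ)} {K : ℝ} (h : KLS K Ω) :
    KLS K (T '' Ω) := by
  intro s hs f hf hf'
  have h1 := h s (fun θ => by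
    have := hs (T θ)
    rw [ev_iso, T.norm_map] at this
    simpa only [LinearIsometryEquiv.inner_map_map] using this) (fun x => f (T x))
    (hf.comp T.contDiff) (fun x => by
      have h2 : HasFDerivAt (fun x : Eu κ => f (T x))
          ((fderiv ℝ f (T x)).comp (T.toContinuousLinearEquiv : Eu κ →L[ℝ] Eu κ')) x :=
        ((hf.differentiable (by norm_num)).differentiableAt.hasFDerivAt).comp x
          T.toContinuousLinearEquiv.hasFDerivAt
      rw [h2.fderiv]
      refine (ContinuousLinearMap.opNorm_comp_le _ _).trans ?_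
      have h3 : ‖(T.toContinuousLinearEquiv : Eu κ →L[ℝ] Eu κ')‖ ≤ 1 := by
        refine ContinuousLinearMap.opNorm_le_bound _ (by norm_num) fun y => ?_
        rw [one_mul]
        exact (T.norm_map y).le
      have h6 := hf' (T x)
      have h7 := norm_nonneg (fderiv ℝ f (T x))
      have h8 := norm_nonneg (T.toContinuousLinearEquiv : Eu κ →L[ℝ] Eu κ')
      nlinarith)
  unfold VV at h1 ⊢
  rw [ev_iso, ev_iso]
  exact h1

theorem dom_iso (T : Eu κ ≃ₗᵢ[ℝ] Eu κ') {Ω : Set (Eu κ)} (h : Dom Ω) : Dom (T '' Ω) := by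
  refine ⟨?_, ?_, ?_, ?_, ?_⟩
  · exact T.toHomeomorph.isOpenMap _ h.op
  · exact h.conv.linear_image T.toLinearEquiv.toLinearMap
  · exact T.lipschitz.isBounded_image h.bdd
  · exact h.ne.image _
  · rintro _ ⟨x, hx, rfl⟩
    exact ⟨-x, h.symm x hx, by rw [map_neg]⟩

end Pool.Agent.Q188.NS
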