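import Pool.Agent.Q188.NC.Base

/-!
# From the functional KLS inequality to sets of measure one half, for symmetric convex bodies
-/

set_option autoImplicit false

namespace Pool.Agent.Q188.NS

open MeasureTheory Set Filter Topology
open scoped ENNReal InnerProductSpace
open Pool.Agent.W695.KH
open Pool.Agent.Q188.NC (KLS Dom)
open Pool.Agent.Q188.SB (un bdr)

variable {κ : Type} [Fintype κ]

/-- a convex body with a nonempty interior and `D = -D` -/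
structure SBody (D : Set (Eu κ)) : Prop where
  conv : Convex ℝ D
  comp : IsCompact D
  int : (interior D).Nonempty
  symm : ∀ x ∈ D, -x ∈ D

theorem SBody.cl {D : Set (Eu κ)} (h : SBody D) : closure (interior D) = D := by
  rw [h.conv.closure_interior_eq_closure_of_nonempty_interior h.int]
  exact h.comp.isClosed.closure_eq

theorem SBody.dom {D : Set (Eu κ)} (h : SBody D) : Dom (interior D) := by
  refine ⟨isOpen_interior, h.conv.interior, h.comp.isBounded.subset interior_subset, h.int, ?_⟩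
  intro x hx
  have h1 : -x ∈ -interior D := by simpa using hx
  have h2 : -interior D ⊆ D := by
    intro y hy
    have := h.symm _ (interior_subset hy)
    simpa using this
  exact interior_maximal h2 isOpen_interior.neg h1

theorem SBody.pos {D : Set (Eu κ)} (h : SBody D) : 0 < volume D :=
  lt_of_lt_of_le (isOpen_interior.measure_pos volume h.int) (measure_mono interior_subset)

theorem SBody.ev {D : Set (Eu κ)} (h : SBody D) (g : Eu κ → ℝ) : EV D g = EV (interior D) g := by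
  have hae := Pool.Agent.W932.KH.closure_ae (κ := κ) h.dom.op h.dom.conv
  rw [h.cl] at hae
  unfold EV
  rw [setIntegral_congr_set hae, measure_congr hae]

theorem SBody.kls {D : Set (Eu κ)} (h : SBody D) {K : ℝ} (hK : KLS K (interior D)) : KLS K D := by
  intro s hs f hf hf'
  have := hK s (fun θ => by rw [← h.ev]; exact hs θ) f hf hf'
  unfold VV at this ⊢
  rwa [h.ev, h.ev]

theorem SBody.max {D : Set (Eu κ)} [Nonempty κ] (h : SBody D) :
    ∃ a : Eu κ, ‖a‖ = 1 ∧ 0 < EV D (fun x => ⟪a, x⟫_ℝ ^ 2) ∧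
      ∀ θ : Eu κ, EV D (fun x => ⟪θ, x⟫_ℝ ^ 2) ≤ EV D (fun x => ⟪a, x⟫_ℝ ^ 2) * ‖θ‖ ^ 2 := by
  obtain ⟨a, ha, hm⟩ := Pool.Agent.W932.KH.q_max h.dom.op h.dom.bdd
  refine ⟨a, ha, ?_, fun θ => ?_⟩
  · rw [h.ev]
    exact Pool.Agent.W932.KH.q_pos h.dom.op h.dom.bdd h.dom.zero_mem a ha
  · rw [h.ev, h.ev]
    exact hm θ

/-- the mean of an odd function vanishes -/
theorem SBody.mean {D : Set (Eu κ)} (h : SBody D) (θ : Eu κ) : EV D (fun x => ⟪x, θ⟫_ℝ) = 0 := by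
  unfold EV
  have hD : (fun x : Eu κ => -x) ⁻¹' D = D := by
    ext x
    constructor
    · intro hx
      have := h.symm _ hx
      simpa using this
    · intro hx
      exact h.symm x hx
  have h1 : ∫ x in D, ⟪x, θ⟫_ℝ = ∫ x in D, ⟪-x, θ⟫_ℝ := by
    have h2 := (Measure.measurePreserving_neg (volume : Measure (Eu κ))).setIntegral_preimage_emb
      (MeasurableEquiv.neg (Eu κ)).measurableEmbedding (fun x => ⟪x, θ⟫_ℝ) D
    have e : (Neg.neg ⁻¹' D : Set (Eu κ)) = D := hD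
    rw [← h2, e]
  have h3 : ∫ x in D, ⟪-x, θ⟫_ℝ = - ∫ x in D, ⟪x, θ⟫_ℝ := by
    rw [← integral_neg]
    simp only [inner_neg_left]
  have h4 : ∫ x in D, ⟪x, θ⟫_ℝ = 0 := by linarith [h1.trans h3]
  rw [h4, zero_div]

/-- covariance form -/
theorem cov_form [Nonempty κ] {D : Set (Eu κ)} (H : SBody D) {K : ℝ} (hK : 0 < K) (hKLS : KLS K D)
    (s : ℝ) (hs : 0 < s)
    (hvar : ∀ θ : Eu κ, ‖θ‖ = 1 → ProbabilityTheory.variance (fun x => ⟪x, θ⟫_ℝ) (un D) ≤ s) :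
    (∀ f : Eu κ → ℝ, ContDiff ℝ 1 f → (∀ x, ‖fderiv ℝ f x‖ ≤ 1) →
      ProbabilityTheory.variance f (un D) ≤ K * s) ∧
    (∀ f : Eu κ → ℝ, ContDiff ℝ 1 f → (∀ x, |f x| ≤ 1) →
      ProbabilityTheory.variance f (un D) ^ 2 ≤ 8 * (K * s) * ∫ x, ‖fderiv ℝ f x‖ ^ 2 ∂(un D)) ∧
    ∀ S : Set (Eu κ), un D S = 1 / 2 →
      ENNReal.ofReal (1 / (240 * Real.sqrt (K * s))) ≤ bdr (un D) S := by
  have hs' : ∀ θ : Eu κ, EV D (fun x => ⟪θ, x⟫_ℝ ^ 2) ≤ s * ‖θ‖ ^ 2 := by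
    intro θ
    by_cases hθ : θ = 0
    · rw [hθ]
      unfold EV
      simp
    have hn : 0 < ‖θ‖ := norm_pos_iff.2 hθ
    have h1 := hvar (‖θ‖⁻¹ • θ) (by rw [norm_smul, norm_inv, norm_norm, inv_mul_cancel₀ hn.ne'])
    rw [Pool.Agent.Q188.SB.var_un D H.comp H.pos _ (by fun_prop)] at h1
    unfold VV at h1
    rw [H.mean] at h1
    have e1 : (fun x : Eu κ => ⟪x, ‖θ‖⁻¹ • θ⟫_ℝ ^ 2) = fun x => (‖θ‖⁻¹) ^ 2 * ⟪θ, x⟫_ℝ ^ 2 := by
      funext x
      rw [inner_smul_right, real_inner_comm, mul_pow]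
    rw [e1] at h1
    have e2 : EV D (fun x : Eu κ => (‖θ‖⁻¹) ^ 2 * ⟪θ, x⟫_ℝ ^ 2) =
        (‖θ‖⁻¹) ^ 2 * EV D (fun x => ⟪θ, x⟫_ℝ ^ 2) := by
      unfold EV
      rw [integral_const_mul, mul_div_assoc]
    rw [e2] at h1
    have h2 : (‖θ‖⁻¹) ^ 2 * EV D (fun x => ⟪θ, x⟫_ℝ ^ 2) ≤ s := by linarith
    rw [inv_pow, inv_mul_le_iff₀ (by positivity)] at h2
    linarith
  have hlip : ∀ f : Eu κ → ℝ, ContDiff ℝ 1 f → (∀ x, ‖fderiv ℝ f x‖ ≤ 1) → VV D f ≤ K * s :=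
    hKLS s hs'
  have hD0 : 0 < K * s := by positivity
  refine ⟨fun f hf hf1 => ?_, fun f hf hf1 => ?_, fun S hS => ?_⟩
  · rw [Pool.Agent.Q188.SB.var_un D H.comp H.pos f hf.continuous]
    exact hlip f hf hf1
  · rw [Pool.Agent.Q188.SB.var_un D H.comp H.pos f hf.continuous, Pool.Agent.Q188.SB.int_un]
    exact Pool.Agent.Q188.SB.nash D H.comp H.conv H.pos _ hD0 hlip f hf hf1
  · exact Pool.Agent.Q188.SB.half_sets D H.comp H.conv H.pos _ hD0 hlip (un D) rfl S hS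

/-- halfspace form -/
theorem half_form : ∃ c0 : ℝ, 0 < c0 ∧ ∀ (κ : Type) [Fintype κ] [Nonempty κ] (D : Set (Eu κ)),
    SBody D → ∀ K : ℝ, 0 < K → KLS K D →
    ∀ t : ℝ≥0∞, (∀ (u : Eu κ) (b : ℝ), u ≠ 0 →
      t * min (un D {x | ⟪u, x⟫_ℝ ≤ b}) (1 - un D {x | ⟪u, x⟫_ℝ ≤ b}) ≤
        bdr (un D) {x | ⟪u, x⟫_ℝ ≤ b}) →
    ∀ S : Set (Eu κ), un D S = 1 / 2 →
      ENNReal.ofReal (c0 / Real.sqrt K) * t * (1 / 2) ≤ bdr (un D) S := by
  obtain ⟨C, hC, hhalf⟩ := half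
  refine ⟨1 / (120 * Real.sqrt C), by positivity, ?_⟩
  intro κ _ _ D H K hK hKLS t ht S hS
  obtain ⟨θ, hθ, hpos, hmax⟩ := H.max
  set s := EV D (fun x => ⟪θ, x⟫_ℝ ^ 2) with hsdef
  have h1 := hhalf κ D H.comp H.conv H.int H.symm (un D) rfl θ t hθ (by
    have := ht θ 0 (by rw [← norm_ne_zero_iff, hθ]; norm_num)
    exact this)
  have htt : t ≠ ⊤ := by
    rintro rfl
    rw [ENNReal.top_pow (by norm_num), ENNReal.top_mul (by
      rw [Ne, ENNReal.ofReal_eq_zero, not_le]; exact hpos)] at h1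
    exact absurd h1 (by simp)
  obtain ⟨τ, hτ0, rfl⟩ : ∃ τ : ℝ, 0 ≤ τ ∧ t = ENNReal.ofReal τ :=
    ⟨t.toReal, ENNReal.toReal_nonneg, (ENNReal.ofReal_toReal htt).symm⟩
  rw [← ENNReal.ofReal_pow hτ0, ← ENNReal.ofReal_mul (by positivity),
    ENNReal.ofReal_le_ofReal_iff hC.le] at h1
  have h3 : τ ≤ Real.sqrt C / Real.sqrt s := by
    refine le_of_sq_le_sq ?_ (by positivity)
    rw [div_pow, Real.sq_sqrt hC.le, Real.sq_sqrt hpos.le, le_div_iff₀ hpos]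
    exact h1
  have hD0 : 0 < K * s := by positivity
  have hhs := Pool.Agent.Q188.SB.half_sets D H.comp H.conv H.pos _ hD0 (hKLS s hmax) (un D) rfl S hS
  refine le_trans ?_ hhs
  have e2 : (1 / 2 : ℝ≥0∞) = ENNReal.ofReal (1 / 2) := by
    rw [ENNReal.ofReal_div_of_pos (by norm_num)]; simp
  rw [e2, ← ENNReal.ofReal_mul (by positivity), ← ENNReal.ofReal_mul (by positivity)]
  apply ENNReal.ofReal_le_ofReal
  have s1 : 0 < Real.sqrt C := Real.sqrt_pos.2 hC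
  have s2 : 0 < Real.sqrt s := Real.sqrt_pos.2 hpos
  have s3 : 0 < Real.sqrt K := Real.sqrt_pos.2 hK
  rw [Real.sqrt_mul hK.le]
  calc 1 / (120 * Real.sqrt C) / Real.sqrt K * τ * (1 / 2)
      ≤ 1 / (120 * Real.sqrt C) / Real.sqrt K * (Real.sqrt C / Real.sqrt s) * (1 / 2) := by gcongr
    _ = 1 / (240 * (Real.sqrt K * Real.sqrt s)) := by
        field_simp
        norm_num

end Pool.Agent.Q188.NS
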